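import Pool.Agent.Helper43.GD.St

/-! Project GD, module P3: a group calculation in a frame. -/

set_option autoImplicit false

namespace Pool.Agent.Helper40.GD

open Pool.Agent.Helper43.GD

theorem hP3 : StP3 := by
  intro L A _ _ Q u s s' hs hs'
  obtain ⟨hsU, hsc⟩ := hs
  obtain ⟨hsU', hsc'⟩ := hs'
  have hn := Q.neg
  set U : L := (u : L) with hU
  set V : L := ((u⁻¹ : Lˣ) : L) with hV
  set K : A := Q.h s with hK
  set H : A := Q.h s' with hH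
  -- the element g = h(-1) w
  set g : A := Q.h (-1) * Q.w with hg
  have gE : ∀ a, g * Q.E a * g⁻¹ = Q.F a := by
    intro a
    calc g * Q.E a * g⁻¹ = Q.h (-1) * (Q.w * Q.E a * Q.w⁻¹) * (Q.h (-1))⁻¹ := by
          rw [hg]; group
      _ = _ := by rw [Q.w_E, Q.neg_F, neg_neg]
  have gF : ∀ b, g * Q.F b * g⁻¹ = Q.E b := by
    intro b
    calc g * Q.F b * g⁻¹ = Q.h (-1) * (Q.w * Q.F b * Q.w⁻¹) * (Q.h (-1))⁻¹ := by
          rw [hg]; group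
      _ = _ := by rw [Q.w_F, Q.neg_E, neg_neg]
  have gH : g * H * g⁻¹ = H⁻¹ := by
    have c : Q.h (-1) * H⁻¹ = H⁻¹ * Q.h (-1) := by
      have := Q.h_comm hn (Q.U.inv_mem hsU')
      rwa [Q.h_inv hsU'] at this
    calc g * H * g⁻¹ = Q.h (-1) * (Q.w * H * Q.w⁻¹) * (Q.h (-1))⁻¹ := by
          rw [hg]; group
      _ = Q.h (-1) * H⁻¹ * (Q.h (-1))⁻¹ := by rw [hH, Q.w_h hsU']
      _ = _ := by rw [c]; group
  -- the element om'
  set W : A := Q.F V * Q.E (-U) * Q.F V with hW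
  have hWg : W = g * Q.om u⁻¹ * g⁻¹ := by
    have e : ((u⁻¹⁻¹ : Lˣ) : L) = U := by rw [inv_inv]
    calc W = (g * Q.E V * g⁻¹) * (g * Q.F (-U) * g⁻¹) * (g * Q.E V * g⁻¹) := by
          rw [gE, gF]
      _ = g * (Q.E V * Q.F (-U) * Q.E V) * g⁻¹ := by group
      _ = _ := by
        have : Q.om u⁻¹ = Q.E V * Q.F (-U) * Q.E V := by
          change Q.E V * Q.F (-((u⁻¹⁻¹ : Lˣ) : L)) * Q.E V = _
          rw [e]
        rw [this]
  have hWH : W * H⁻¹ * W⁻¹ = H := by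
    calc W * H⁻¹ * W⁻¹ = W * (g * H * g⁻¹) * W⁻¹ := by rw [gH]
      _ = g * (Q.om u⁻¹ * H * (Q.om u⁻¹)⁻¹) * g⁻¹ := by rw [hWg]; group
      _ = g * H⁻¹ * g⁻¹ := by rw [hsc']
      _ = (g * H * g⁻¹)⁻¹ := by group
      _ = H := by rw [gH, inv_inv]
  have hom : Q.om u = Q.F V * W⁻¹ * Q.E U := by
    have : Q.om u = Q.E U * Q.F (-V) * Q.E U := rfl
    rw [this, hW, Q.F_neg, Q.E_neg]
    group
  -- torus actions
  have HF : ∀ b, H⁻¹ * Q.F b * H = Q.F ((s' : L) * b) := by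
    intro b
    have this : H * Q.F ((s' : L) * b) * H⁻¹ = Q.F b := by
      rw [hH, Q.h_F hsU', Units.inv_mul_cancel_left]
    rw [← this]; group
  have HE : ∀ a, H * Q.E a * H⁻¹ = Q.E ((s' : L) * a) := fun a => Q.h_E hsU' a
  have KF : ∀ b, K⁻¹ * Q.F b * K = Q.F ((s : L) * b) := by
    intro b
    have this : K * Q.F ((s : L) * b) * K⁻¹ = Q.F b := by
      rw [hK, Q.h_F hsU, Units.inv_mul_cancel_left]
    rw [← this]; group
  have KE : ∀ a, K * Q.E a * K⁻¹ = Q.E ((s : L) * a) := fun a => Q.h_E hsU a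
  have KH : K * H = H * K := Q.h_comm hsU hsU'
  -- (Q)
  have hQ : (Q.om u)⁻¹ * (Q.F ((1 - (s' : L)) * V) * H⁻¹) * Q.om u
      = Q.E (((s' : L) - 1) * U) * H := by
    have e1 : Q.F ((1 - (s' : L)) * V) * H⁻¹ = Q.F V * H⁻¹ * (Q.F V)⁻¹ := by
      have e : (1 - (s' : L)) * V = V + (s' : L) * (-V) := by ring
      rw [e, Q.Fadd, ← HF, Q.F_neg]
      group
    have e2 : Q.E (((s' : L) - 1) * U) * H = (Q.E U)⁻¹ * H * Q.E U := by
      have e : ((s' : L) - 1) * U = -U + (s' : L) * U := by ring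
      rw [e, Q.Eadd, ← HE, Q.E_neg]
      group
    rw [e1, e2, hom]
    calc (Q.F V * W⁻¹ * Q.E U)⁻¹ * (Q.F V * H⁻¹ * (Q.F V)⁻¹) * (Q.F V * W⁻¹ * Q.E U)
        = (Q.E U)⁻¹ * (W * H⁻¹ * W⁻¹) * Q.E U := by group
      _ = _ := by rw [hWH]
  -- conjugate by K
  have c1 : K * (Q.om u)⁻¹ = (Q.om u)⁻¹ * K⁻¹ := by
    rw [← hsc]; group
  have c2 : Q.om u * K⁻¹ = K * Q.om u := by
    have : (K * (Q.om u)⁻¹)⁻¹ = ((Q.om u)⁻¹ * K⁻¹)⁻¹ := by rw [c1]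
    have h2 : Q.om u * K⁻¹ = (K * (Q.om u)⁻¹)⁻¹ := by group
    rw [h2, this]; group
  have hQ2 : (Q.om u)⁻¹ * (Q.F ((s : L) * ((1 - (s' : L)) * V)) * H⁻¹) * Q.om u
      = Q.E ((s : L) * (((s' : L) - 1) * U)) * H := by
    have KH' : K⁻¹ * H⁻¹ * K = H⁻¹ := by
      have : K⁻¹ * H⁻¹ = H⁻¹ * K⁻¹ := by
        rw [← mul_inv_rev, ← mul_inv_rev, KH]
      rw [this]; group
    have KH2 : K * H * K⁻¹ = H := by rw [KH]; group
    calc (Q.om u)⁻¹ * (Q.F ((s : L) * ((1 - (s' : L)) * V)) * H⁻¹) * Q.om u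
        = (Q.om u)⁻¹ * ((K⁻¹ * Q.F ((1 - (s' : L)) * V) * K) * (K⁻¹ * H⁻¹ * K)) * Q.om u := by
          rw [KF, KH']
      _ = ((Q.om u)⁻¹ * K⁻¹) * (Q.F ((1 - (s' : L)) * V) * H⁻¹) * (K * Q.om u) := by group
      _ = (K * (Q.om u)⁻¹) * (Q.F ((1 - (s' : L)) * V) * H⁻¹) * (Q.om u * K⁻¹) := by
          rw [c1, c2]
      _ = K * ((Q.om u)⁻¹ * (Q.F ((1 - (s' : L)) * V) * H⁻¹) * Q.om u) * K⁻¹ := by group
      _ = K * (Q.E (((s' : L) - 1) * U) * H) * K⁻¹ := by rw [hQ]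
      _ = (K * Q.E (((s' : L) - 1) * U) * K⁻¹) * (K * H * K⁻¹) := by group
      _ = _ := by rw [KE, KH2]
  -- divide
  have hD : (Q.om u)⁻¹ * Q.F (-(V * ((1 - (s : L)) * (1 - (s' : L))))) * Q.om u
      = Q.E (U * ((1 - (s : L)) * (1 - (s' : L)))) := by
    have e1 : -(V * ((1 - (s : L)) * (1 - (s' : L)))) =
        (s : L) * ((1 - (s' : L)) * V) + -((1 - (s' : L)) * V) := by ring
    have e2 : U * ((1 - (s : L)) * (1 - (s' : L))) =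
        (s : L) * (((s' : L) - 1) * U) + -(((s' : L) - 1) * U) := by ring
    rw [e1, e2, Q.Fadd, Q.Eadd, Q.F_neg, Q.E_neg]
    calc (Q.om u)⁻¹ * (Q.F ((s : L) * ((1 - (s' : L)) * V)) * (Q.F ((1 - (s' : L)) * V))⁻¹) * Q.om u
        = ((Q.om u)⁻¹ * (Q.F ((s : L) * ((1 - (s' : L)) * V)) * H⁻¹) * Q.om u) *
          ((Q.om u)⁻¹ * (Q.F ((1 - (s' : L)) * V) * H⁻¹) * Q.om u)⁻¹ := by group
      _ = _ := by rw [hQ2, hQ]; group
  rw [← hD]; group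

end Pool.Agent.Helper40.GD
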